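import Pool.Agent.V11237.LP.PP2

set_option autoImplicit false

/-!
# Almost prime triples of both shapes containing a prime: asymptotics, ratio one, and the law after these
primes
-/

namespace Pool.Agent.Results.MP_c0d11e_nt.LawsOfBothShapes

open Finset
open Pool.Agent.V11237.LP.PP

/-- The two shapes. -/
def h : Fin 2 → Fin 3 → ℕ := ![![0, 2, 6], ![0, 4, 6]]

/-- The number of the admissible residue classes modulo `30` of the two shapes. -/
noncomputable def c : Fin 2 → ℝ := ![2, 2]

/-- **Theorem.** For `θ, δ > 0`, `δ ≤ 1`, `x₀` and `0 < ε ≤ 1` there is `r₀` such that for all `r ≥ r₀` and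
all large `N`: for both shapes `h s`, `s = 0, 1`, the good `m ≤ N` give numbers `m + h s i` with at most `r`
prime factors; if `m > N ^ (1 / r)` and all `m + h s i` are primes, then `m` is good; and `V / U > 0`. For
all `X ≥ N ^ θ` and all windows `(A, A + L] ⊆ (0, X]` with `L ≥ δ X`:
(1) the number of the good `m` of the shape `s` in the window with `m + h s i` PRIME is
`(c s / 30) L (V / U) / log X` up to a relative error `ε`, for every position `i`;
(2) the number for the second shape (any position `j`) is `c 1 / c 0` times the number for the first shape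
(any position `i`), up to a relative error `ε`;
(3) for both shapes and every position `i`, for all `T` with `T V ≤ x₀` and every finite set `B` of
integers, the number of these `m` for which the number of the good `l` in `(m, m + 30 T]` in the class of
`m` modulo `30` lies in `B` is `∑_{j ∈ B} e ^ (-T V) (T V) ^ j / j!` times the number of all these `m`, up
to at most `ε` times this number. -/
theorem result (θ δ : ℝ) (hθ : 0 < θ) (hδ : 0 < δ) (hδ1 : δ ≤ 1) (x₀ ε : ℝ) (hε : 0 < ε)
    (hε1 : ε ≤ 1) :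
    ∃ r₀ : ℕ, 2 ≤ r₀ ∧ ∀ r : ℕ, r₀ ≤ r → ∃ N₀ : ℕ, ∀ N : ℕ, N₀ ≤ N →
      (∀ s, (∀ m : ℕ, m ≤ N → Good (h s) N r m → ∀ i, (m + h s i).primeFactorsList.length ≤ r) ∧
        (∀ m : ℕ, (N : ℝ) ^ (1 / (r : ℝ)) < m → (∀ i, (m + h s i).Prime) → Good (h s) N r m)) ∧
      0 < V 3 N r / U N r ∧
      ∀ X : ℕ, (N : ℝ) ^ θ ≤ X → ∀ A L : ℕ, δ * X ≤ L → A + L ≤ X →
        (∀ s i, |((P (h s) N r i A L).card : ℝ) * Real.log X - c s / 30 * (L * (V 3 N r / U N r))| ≤
          ε * (c s / 30 * (L * (V 3 N r / U N r)))) ∧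
        (∀ i j, |((P (h 1) N r j A L).card : ℝ) - c 1 / c 0 * (P (h 0) N r i A L).card| ≤
          ε * (P (h 0) N r i A L).card) ∧
        ∀ s i, ∀ T : ℕ, T * V 3 N r ≤ x₀ → ∀ B : Finset ℕ,
        |(((P (h s) N r i A L).filter (fun m => Next (h s) N r T m ∈ B)).card : ℝ) -
          (P (h s) N r i A L).card *
            ∑ j ∈ B, Real.exp (-(T * V 3 N r)) * (T * V 3 N r) ^ j / j.factorial| ≤
          ε * (P (h s) N r i A L).card := by
  refine two (C := ![{11, 17}, {7, 13}]) ?_ ?_ (c := c) ?_ ?_ θ δ hθ hδ hδ1 x₀ ε hε hε1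
  · intro s
    fin_cases s
    · exact Pool.Agent.Y879.PR.pat_ta
    · exact Pool.Agent.Y879.PR.pat_tb
  · intro s
    fin_cases s
    · exact ⟨11, by simp⟩
    · exact ⟨7, by simp⟩
  · intro s
    fin_cases s <;> simp [c]
  · simp [c]

end Pool.Agent.Results.MP_c0d11e_nt.LawsOfBothShapes
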