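import Pool.Agent.V11249.NP.Reg
import Pool.Agent.V11249.NP.Fam

/-!
# Triples of almost primes: regular windows in all short intervals

For both shapes of the triples there are `r` and `c₁, c₂, K, κ > 0` such that in every interval `(X, X + Y]` with
`X ^ θ ≤ Y ≤ X` at least `κ Y` of the integers `n` are regular: every window `(a, b]` around `n` of length between
`K log ^ 3 X` and `Y` contains between `c₁ (b - a) / log ^ 3 X` and `c₂ (b - a) / log ^ 3 X` integers `m` for which all the
3 members of the triple starting at `m` have at most `r` prime factors, all larger than `X ^ (1 / r)`; moreover,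
at all but boundedly many dyadic scales these `m` have a constant density around `n`, up to an error `δ`.
-/

set_option autoImplicit false

open Finset Filter Polynomial

namespace Pool.Agent.Results.MP_c0d11e_nt.RegularWindows

/-- the shifts of the two shapes -/
def H (s : Bool) : Fin 3 → ℕ := if s then ![0,2,6] else ![0,4,6]

/-- all the numbers `m + h` of the shape have at most `r` prime factors (with multiplicity), all larger than `z` -/
def AlmostTuple (s : Bool) (r : ℕ) (z : ℝ) (m : ℕ) : Prop :=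
  ∀ i, (m + H s i).primeFactorsList.length ≤ r ∧ ∀ p : ℕ, p.Prime → p ∣ m + H s i → z < p

open Classical in
/-- the number of the `m` in `(a, b]` at which a tuple of almost primes starts, all prime factors being larger than
`X ^ (1 / r)` -/
noncomputable def cnt (s : Bool) (r X a b : ℕ) : ℕ :=
  ((Ioc a b).filter (fun m => AlmostTuple s r ((X : ℝ) ^ (1 / (r : ℝ))) m)).card

/-- all windows `(a, b]` around `n`, of length between `K log ^ 3 X` and `Y`, contain the right order of such `m` -/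
def Regular (s : Bool) (r : ℕ) (c₁ c₂ K : ℝ) (X Y n : ℕ) : Prop :=
  ∀ a b : ℕ, a ≤ n → n ≤ b → K * Real.log X ^ 3 ≤ (b : ℝ) - a → (b : ℝ) - a ≤ Y →
    c₁ * ((b : ℝ) - a) / Real.log X ^ 3 ≤ (cnt s r X a b : ℝ) ∧
    (cnt s r X a b : ℝ) ≤ c₂ * ((b : ℝ) - a) / Real.log X ^ 3

/-- the density is constant on `[n - 2 ^ j, n + 2 ^ j]`, up to `δ` -/
def Constant (s : Bool) (r : ℕ) (c₁ c₂ δ : ℝ) (X n j : ℕ) : Prop :=
  ∃ lam : ℝ, c₁ ≤ lam ∧ lam ≤ c₂ ∧ ∀ u v : ℕ, n ≤ u + 2 ^ j → u ≤ v → v ≤ n + 2 ^ j →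
    |(cnt s r X u v : ℝ) - lam * ((v : ℝ) - u) / Real.log X ^ 3| ≤ δ * 2 ^ j / Real.log X ^ 3

open Classical in
/-- the number of the scales `2 ^ j` between `log ^ 3 X` and `Y` at which the density is not constant -/
noncomputable def badScales (s : Bool) (r : ℕ) (c₁ c₂ δ : ℝ) (X Y n : ℕ) : ℕ :=
  ((range (Nat.log 2 Y + 1)).filter (fun j => Real.log X ^ 3 ≤ (2 : ℝ) ^ j ∧ ¬ Constant s r c₁ c₂ δ X n j)).card

/-- the system -/
noncomputable def F (s : Bool) : Fin 3 → ℤ[X] :=
  fun i => Pool.Agent.TH464.PW.quad 0 1 ((H s i : ℕ) : ℤ)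

theorem sys (s : Bool) : Pool.Agent.W123.RU.Poly.Sys (F s) := by
  refine Pool.Agent.V11249.NP.sys_of (fun _ => 0) (fun _ => 1) (fun i => ((H s i : ℕ) : ℤ)) ?_ ?_ ?_
    (if s then 5 else 7) (if s then 101 else 97) ?_
  · intro i
    exact Or.inr ⟨rfl, by norm_num⟩
  · intro i
    simp [Int.gcd]
  · intro i j _ _ h
    have h' : H s i = H s j := by exact_mod_cast h
    clear h
    revert i j
    cases s <;> decide
  · cases s <;> decide

theorem ev (s : Bool) (i : Fin 3) (m : ℕ) : (F s i).eval (m : ℤ) = ((m + H s i : ℕ) : ℤ) := by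
  unfold F
  refine (Pool.Agent.TH464.PW.quad_eval _ _ _ _).trans ?_
  push_cast
  ring

theorem iff_almost (s : Bool) (r : ℕ) (z : ℝ) (m : ℕ) :
    AlmostTuple s r z m ↔ Pool.Agent.TH464.PW.Almost (F s) r z m := by
  unfold AlmostTuple Pool.Agent.TH464.PW.Almost
  refine forall_congr' fun i => ?_
  rw [ev, Int.natAbs_natCast]
  refine and_congr_right fun _ => ?_
  constructor
  · intro h p hp hd
    exact h p hp (Int.natCast_dvd_natCast.1 hd)
  · intro h p hp hd
    exact h p hp (Int.natCast_dvd_natCast.2 hd)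

open Classical in
/-- **Regular windows.** For both shapes `s` and `0 < θ ≤ 1` there are `r` and `c₁, c₂, K, κ > 0` such that for every
`δ > 0` there is `B` such that for all large `X` and all `X ^ θ ≤ Y ≤ X`: at least `κ Y` of the `n` in `(X, X + Y]` are
regular and have at most `B` scales at which the density is not constant up to `δ`. -/
theorem result (s : Bool) (θ : ℝ) (hθ : 0 < θ) (hθ1 : θ ≤ 1) :
    ∃ (r : ℕ) (c₁ c₂ K κ : ℝ), 0 < c₁ ∧ 0 < c₂ ∧ 0 < K ∧ 0 < κ ∧ ∀ δ : ℝ, 0 < δ → ∃ B : ℕ,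
      ∀ᶠ X : ℕ in atTop, ∀ Y : ℕ, (X : ℝ) ^ θ ≤ Y → Y ≤ X →
        κ * Y ≤ (((Ioc X (X + Y)).filter (fun n =>
          Regular s r c₁ c₂ K X Y n ∧ badScales s r c₁ c₂ δ X Y n ≤ B)).card : ℝ) := by
  have h := Pool.Agent.V11249.NP.reg_win (g := 3) (by norm_num) (F s) (sys s) (AlmostTuple s)
    (iff_almost s) θ hθ hθ1
  exact h

end Pool.Agent.Results.MP_c0d11e_nt.RegularWindows
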